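import Mathlib

/-!
Definitions for the theorem on monohedral tilings by a convex prototile (MP_bd00dd_co).
FIXED file.
-/

namespace Pool.Agent.Work.MP_bd00dd_co

open MeasureTheory Metric Set

/-- The Euclidean plane. -/
abbrev Pl := EuclideanSpace ℝ (Fin 2)

/-- The congruent copies g i of the compact convex set P with nonempty interior
cover the plane and have pairwise disjoint interiors. -/
structure Tiling {ι : Type*} (P : Set Pl) (g : ι → Pl ≃ᵢ Pl) : Prop where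
  conv : Convex ℝ P
  comp : IsCompact P
  int : (interior P).Nonempty
  cov : ⋃ i, g i '' P = univ
  disj : ∀ i j, i ≠ j → Disjoint (interior (g i '' P)) (interior (g j '' P))

/-- Compact convex sets with nonempty interior and finitely many extreme points
(convex polygons). -/
structure Poly (Q : Set Pl) : Prop where
  conv : Convex ℝ Q
  comp : IsCompact Q
  int : (interior Q).Nonempty
  fin : (Q.extremePoints ℝ).Finite

/-- The segment from p to q is a side of Q. -/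
def IsSide (Q : Set Pl) (p q : Pl) : Prop :=
  p ∈ Q.extremePoints ℝ ∧ q ∈ Q.extremePoints ℝ ∧ p ≠ q ∧ segment ℝ p q ⊆ frontier Q

/-- Directions pointing from x into Q. -/
def cone (Q : Set Pl) (x : Pl) : Set Pl := {u | ∃ r : ℝ, 0 < r ∧ x + r • u ∈ Q}

/-- The interior angle of Q at x in units of π (it is 2 at interior points). -/
noncomputable def ang (Q : Set Pl) (x : Pl) : ℝ :=
  2 * (volume (cone Q x ∩ ball 0 1)).toReal / (volume (ball (0 : Pl) 1)).toReal

/-- Two by two determinant. -/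
def cross (u w : Pl) : ℝ := u 0 * w 1 - u 1 * w 0

/-- The tiles which contain v. -/
def Thr {ι : Type*} (P : Set Pl) (g : ι → Pl ≃ᵢ Pl) (v : Pl) : Set ι := {i | v ∈ g i '' P}

/-- v is a vertex of the tiling: at least three tiles contain v. -/
def IsVx {ι : Type*} (P : Set Pl) (g : ι → Pl ≃ᵢ Pl) (v : Pl) : Prop := 3 ≤ (Thr P g v).ncard

/-- Value at v of a tile i: the angle of the corner of the tile i at v if the tile i has a
corner at v, and 1 otherwise (then v lies inside a side of the tile). -/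
noncomputable def A {ι : Type*} (S : Finset Pl) (θ : Pl → ℝ) (g : ι → Pl ≃ᵢ Pl) (i : ι) (v : Pl) :
    ℝ := by
  classical exact if (g i).symm v ∈ S then θ ((g i).symm v) else 1

/-- The tiles i and j have sides (images of s t and of s' t') which start at the same point and
have the same direction. -/
def Prt {ι : Type*} (Sd : Pl → Pl → Prop) (g : ι → Pl ≃ᵢ Pl) (i : ι) (s t : Pl) (j : ι)
    (s' t' : Pl) : Prop :=
  i ≠ j ∧ Sd s t ∧ Sd s' t' ∧ g i s = g j s' ∧ SameRay ℝ (g i t - g i s) (g j t' - g j s')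

/-- The facts about a tiling which the counting arguments use. S is the set of the corners of
the prototile, θ the angles (in units of π), Sd s t says that s t is a side of the prototile,
ts v is the set of the tiles which contain v, vs i the set of the vertices of the tiling on the
tile i, and n is the number of neighbours of each tile. The side lengths are dist s t. -/
structure Dat {ι : Type*} (n : ℕ) (S : Finset Pl) (θ : Pl → ℝ) (Sd : Pl → Pl → Prop)
    (g : ι → Pl ≃ᵢ Pl) (vs : ι → Finset Pl) (ts : Pl → Finset ι) : Prop where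
  three : 3 ≤ S.card
  pos : ∀ s ∈ S, 0 < θ s
  lt1 : ∀ s ∈ S, θ s < 1
  sum : ∑ s ∈ S, θ s = (S.card : ℝ) - 2
  mem : ∀ i v, v ∈ vs i ↔ i ∈ ts v ∧ 3 ≤ (ts v).card
  cmem : ∀ i, ∀ s ∈ S, g i s ∈ vs i
  tot : ∀ v, 3 ≤ (ts v).card → ∑ i ∈ ts v, A S θ g i v = 2
  cnt : ∀ i, ∑ v ∈ vs i, (ts v).card = n + 2 * (vs i).card
  ap : ∀ (F : ι → Pl → ℝ) (Q : Finset ℝ), (∀ i, ∀ v ∈ vs i, F i v ∈ Q) →
    (∀ v, 3 ≤ (ts v).card → ∑ i ∈ ts v, F i v ≤ 0) → ∃ i, ∑ v ∈ vs i, F i v ≤ 0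
  sd : ∀ s t, Sd s t → s ∈ S ∧ t ∈ S ∧ s ≠ t
  sdsymm : ∀ s t, Sd s t → Sd t s
  two : ∀ s ∈ S, ∃ t u, t ≠ u ∧ Sd s t ∧ Sd s u ∧ ∀ w, Sd s w → w = t ∨ w = u
  tineq : ∀ x ∈ S, ∀ y ∈ S, ∀ z ∈ S, x ≠ y → y ≠ z → x ≠ z → dist x z < dist x y + dist y z
  seg : ∀ j s t, s ∈ S → t ∈ S → ∀ x ∈ segment ℝ (g j s) (g j t), j ∈ ts x
  share : ∀ i j, i ≠ j → ∀ x ∈ vs i, ∀ y ∈ vs i, ∀ z ∈ vs i, x ∈ vs j → y ∈ vs j → z ∈ vs j →
    x ≠ y → y ≠ z → x ≠ z → False
  adj : ∀ i j s t, i ≠ j → s ∈ S → t ∈ S → s ≠ t → j ∈ ts (g i s) → j ∈ ts (g i t) → Sd s t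
  across : ∀ i s t, Sd s t → (∀ w ∈ vs i, w ∉ openSegment ℝ (g i s) (g i t)) →
    ∃ j, j ≠ i ∧ j ∈ ts (g i s) ∧ j ∈ ts (g i t) ∧
      ∀ j', j' ≠ i → j' ∈ ts (g i s) → j' ∈ ts (g i t) → j' = j
  strt : ∀ i, ∀ v ∈ vs i, (g i).symm v ∉ S → ∃ s t, Sd s t ∧ v ∈ openSegment ℝ (g i s) (g i t)
  openc : ∀ i s t s', Sd s t → s' ∈ S → g i s' ∉ openSegment ℝ (g i s) (g i t)
  same : ∀ i s t s' t' w, Sd s t → Sd s' t' → w ∈ openSegment ℝ (g i s) (g i t) →
    w ∈ openSegment ℝ (g i s') (g i t') → (s = s' ∧ t = t') ∨ (s = t' ∧ t = s')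
  line : ∀ i j x y s t, i ≠ j → Sd s t → x ∈ openSegment ℝ (g i s) (g i t) → x ∈ vs i →
    j ∈ ts x → y ∈ vs i → j ∈ ts y → y ∈ segment ℝ (g i s) (g i t)
  ray : ∀ i s t, Sd s t → (∀ j ∈ ts (g i s), (g j).symm (g i s) ∈ S) →
    ∃ j s' t', Prt Sd g i s t j s' t'
  rayu : ∀ i s t j s' t' j' s'' t'', Prt Sd g i s t j s' t' → Prt Sd g i s t j' s'' t'' →
    j = j' ∧ s' = s'' ∧ t' = t''
  trilt : S.card = 3 → ∀ x ∈ S, ∀ y ∈ S, ∀ z ∈ S, x ≠ y → y ≠ z → x ≠ z → θ x < θ y →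
    dist y z < dist x z
  tritwo : S.card = 3 → ∀ x ∈ S, ∀ y ∈ S, ∀ z ∈ S, x ≠ y → y ≠ z → x ≠ z → θ z = 2 / 3 →
    θ x ≤ 2 / 21 → 2 * dist y z < dist x z

/-- The vertex v is half: some tile which contains v has no corner at v. -/
def Half {ι : Type*} (S : Finset Pl) (g : ι → Pl ≃ᵢ Pl) (ts : Pl → Finset ι) (v : Pl) : Prop :=
  ∃ j ∈ ts v, (g j).symm v ∉ S

/-- The tile i has no side vertices: each vertex of the tiling on it is a corner of it. -/
def NS {ι : Type*} (S : Finset Pl) (g : ι → Pl ≃ᵢ Pl) (vs : ι → Finset Pl) (i : ι) : Prop :=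
  ∀ v ∈ vs i, (g i).symm v ∈ S

/-- Number of tiles whose corner s lies at v. -/
noncomputable def N {ι : Type*} (g : ι → Pl ≃ᵢ Pl) (ts : Pl → Finset ι) (s v : Pl) : ℕ := by
  classical exact ((ts v).filter (fun i => (g i).symm v = s)).card

/-- Number of tiles which contain v and have no corner at v. -/
noncomputable def stc {ι : Type*} (S : Finset Pl) (g : ι → Pl ≃ᵢ Pl) (ts : Pl → Finset ι)
    (v : Pl) : ℕ := by
  classical exact ((ts v).filter (fun i => (g i).symm v ∉ S)).card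

/-- Number of side vertices of the tile i. -/
noncomputable def scount {ι : Type*} (S : Finset Pl) (g : ι → Pl ≃ᵢ Pl) (vs : ι → Finset Pl)
    (i : ι) : ℕ := by
  classical exact ((vs i).filter (fun v => (g i).symm v ∉ S)).card

/-- The cost of a vertex of degree d (h says that it is half). -/
noncomputable def phi (d : ℕ) (h : Prop) : ℝ := by
  classical exact if h then 1 - 5 / (2 * (d : ℝ)) else 1 - 3 / (d : ℝ)

/-- The corners a, b, c of a triangle, ordered by their angles. -/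
structure Tri (S : Finset Pl) (θ : Pl → ℝ) (a b c : Pl) : Prop where
  mem : ∀ s, s ∈ S ↔ s = a ∨ s = b ∨ s = c
  ab : a ≠ b
  bc : b ≠ c
  ac : a ≠ c
  le1 : θ a ≤ θ b
  le2 : θ b ≤ θ c
  sum : θ a + θ b + θ c = 1

/-- A hub v0 of a tiling by quadrilaterals: all tiles at v0 have the corner a at v0, they have no
side vertices, and their other corners have degree 3; p, q are the corners next to a, o is the
opposite corner. -/
structure Hub4 {ι : Type*} (S : Finset Pl) (Sd : Pl → Pl → Prop) (g : ι → Pl ≃ᵢ Pl)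
    (vs : ι → Finset Pl) (ts : Pl → Finset ι) (v0 a o p q : Pl) : Prop where
  mem : ∀ s, s ∈ S ↔ s = a ∨ s = o ∨ s = p ∨ s = q
  ao : a ≠ o
  ap : a ≠ p
  aq : a ≠ q
  op : o ≠ p
  oq : o ≠ q
  pq : p ≠ q
  sap : Sd a p
  saq : Sd a q
  spo : Sd p o
  sqo : Sd q o
  nao : ¬ Sd a o
  npq : ¬ Sd p q
  lab : ∀ j ∈ ts v0, g j a = v0
  ne : (ts v0).Nonempty
  vx : 3 ≤ (ts v0).card
  ns : ∀ j ∈ ts v0, NS S g vs j
  deg : ∀ j ∈ ts v0, ∀ s ∈ S, s ≠ a → (ts (g j s)).card = 3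

/-- Possible numbers m, l, j of corners with angles α, β, γ and st of straight tiles at a
vertex. -/
def Ty (α β γ : ℝ) (m l j st : ℕ) : Prop :=
  m * α + l * β + j * γ + st = 2 ∧ st ≤ 1 ∧ 3 ≤ m + l + j + st

/-- Parity obstruction for a full vertex. -/
def Mix (m l j st : ℕ) : Prop := st = 0 ∧ ¬ (Even (m + l) ∧ Even (l + j) ∧ Even (m + j))

end Pool.Agent.Work.MP_bd00dd_co
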