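import Pool.Agent.Work.MP_bd00dd_co.C.Comb
import Pool.Agent.Work.MP_bd00dd_co.G.Dat

/-!
The theorem of Fejes Toth's conjecture for convex prototiles (assembly).
-/

namespace Pool.Agent.Work.MP_bd00dd_co

open MeasureTheory Metric Set

theorem main {ι : Type*} {P : Set Pl} {g : ι → Pl ≃ᵢ Pl} (h : Tiling P g) {n : ℕ}
    (hn : ∀ i, {j | j ≠ i ∧ (g i '' P ∩ g j '' P).Nonempty}.ncard = n) : n ≤ 21 :=
  comb (dat_of h n hn)

end Pool.Agent.Work.MP_bd00dd_co
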